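import Pool.Agent.Run7.h293.Art

/-! # The corrected density for almost all the bases `D u_k ^ 2`, `u_k` a linear recurrence of order two

Let `D ≠ 1` be a squarefree integer, `D ≡ 1 mod 4`, let
`δ(D) = (1 - μ(|D|) ∏_{q ∣ D} 1 / (q² - q - 1)) A`, where `A` is Artin's constant, and write `P(n, x)` for the number of
primes `p ≤ x` modulo which `n` is a primitive root. Let `u_0, u_1, u_2, ...` be a linear recurrence of order two with
integer terms, `u_(k+2) = a u_(k+1) - b u_k`, nondegenerate (the quotient of the roots of `X² - a X + b` is not a root of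
unity) and not a geometric progression: the Fibonacci numbers, the Mersenne numbers `2 ^ k - 1`, the numbers
`c₁ r ^ k + c₂ s ^ k`, the solutions of Pell's equation, and so on. All the bases `D u_k ^ 2` have squarefree part
`D ≡ 1 mod 4`, so they are the integers of Q1 (apart from the perfect powers among them), and they form a set with only
`O(log N)` elements up to `N`. For all but `K / (log X) ^ B` of the indices `k < K`, for any given `B`, the base
`n = D u_k ^ 2` satisfies `|P(n, x) - δ(D) π(x)| ≤ ε π(x)` for EVERY `x ≥ X` with `x ^ 5 ≤ K`.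

Proof: the second moment over `k` of the number of primes. Let `T_p` be the rank of apparition of `p`, the order of the
shift of the recurrence in the group `PGL₂(F_p)`. For nontrivial characters `χ` modulo `p` and `ρ` modulo `q` the sum of
`χ(u_k) ρ(u_k)` over a common period of length `L` is at most `L √(p q) / lcm(T_p, T_q)`: its absolute value is constant
on the orbit of the pair of initial vectors under scalars and the shift, and the mean square over all pairs of vectors
is computed exactly. All but `o(π(x))` of the primes `p ≤ x` satisfy `T_p > √x (log x) ^ C`: the smaller `T_p` are few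
because `p` divides a nonzero Lucas number with a small index; the `T_p` near `√x` are few because `T_p ∣ p - 1` or
`T_p ∣ p + 1`, and few shifted primes have a divisor in such a short interval (sieve, and mean values of multiplicative
functions).

Library: helper730 (expansion in characters and main term with the correction factor), helper318 (passage to all `x`),
the sieve of project Erdos456, helper907 (mean values of multiplicative functions). -/

set_option autoImplicit false

namespace Pool.Agent.Results.MP_991e92_nt.RecurrenceSquares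

open Finset Run7.h293

/-- the number of primes `p ≤ x` modulo which `n` is a primitive root -/
noncomputable def P (n : ℤ) (x : ℕ) : ℕ :=
  ((range (x + 1)).filter (fun p : ℕ => p.Prime ∧ orderOf (n : ZMod p) = p - 1)).card

/-- the density of Q1 for integers with squarefree part `D`:
`(1 - μ(|D|) ∏_{q ∣ D} 1 / (q² - q - 1)) ∏_p (1 - 1 / (p (p - 1)))` -/
noncomputable def δ (D : ℤ) : ℝ :=
  (1 - ((ArithmeticFunction.moebius D.natAbs : ℤ) : ℝ) *
      ∏ q ∈ D.natAbs.primeFactors, (1 / ((q : ℝ) ^ 2 - (q : ℝ) - 1))) *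
    ∏' p : Nat.Primes, (1 - 1 / (((p : ℕ) : ℝ) * (((p : ℕ) : ℝ) - 1)))

/-- For EVERY `x ≥ X` with `x ^ 5 ≤ K`, the number of primes `p ≤ x` modulo which `n` is a primitive root is
`δ π(x)` up to an error of at most `ε π(x)`. -/
def Regular (δ ε : ℝ) (X K : ℕ) (n : ℤ) : Prop :=
  ∀ x : ℕ, X ≤ x → x ^ 5 ≤ K → |(P n x : ℝ) - δ * (Nat.primeCounting x : ℝ)| ≤ ε * (Nat.primeCounting x : ℝ)

lemma P_eq (n : ℤ) (x : ℕ) : P n x = Pool.Agent.H730R2.AA.cnt n x := by
  classical
  unfold P Pool.Agent.H730R2.AA.cnt
  congr!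

/-- **Theorem.** Let `u_(k+2) = a u_(k+1) - b u_k` be a linear recurrence with integer terms, `b ≠ 0`,
`a ^ 2 ∉ {0, b, 2 b, 3 b, 4 b}` (that is, the quotient of the roots of `X² - a X + b` is not a root of unity) and
`u_1 ^ 2 - a u_0 u_1 + b u_0 ^ 2 ≠ 0` (that is, `u` is not a geometric progression), and let `D ≠ 1` be squarefree,
`D ≡ 1 mod 4`. For all `B` and `ε > 0` there is `X₀` such that for all `X ≥ X₀` and all `K`, all but `K / (log X) ^ B`
of the `k < K` satisfy: for EVERY `x ≥ X` with `x ^ 5 ≤ K`, the number of primes `p ≤ x` modulo which `D u_k ^ 2` is a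
primitive root is `δ(D) π(x)` up to an error of at most `ε π(x)`. -/
theorem result (a b : ℤ) (hb : b ≠ 0) (h0 : a ≠ 0) (h1 : a ^ 2 ≠ b) (h2 : a ^ 2 ≠ 2 * b) (h3 : a ^ 2 ≠ 3 * b)
    (h4 : a ^ 2 ≠ 4 * b) (u : ℕ → ℤ) (hu : ∀ k, u (k + 2) = a * u (k + 1) - b * u k)
    (hW : u 1 ^ 2 - a * u 0 * u 1 + b * u 0 ^ 2 ≠ 0) (D : ℤ) (hD : Squarefree D) (hD1 : D % 4 = 1) (hD2 : D ≠ 1)
    (B : ℕ) (ε : ℝ) (hε : 0 < ε) :
    ∃ X₀ : ℕ, ∀ X K : ℕ, X₀ ≤ X →
      (({k : ℕ | k < K ∧ ¬ Regular (δ D) ε X K (D * u k ^ 2)}.ncard : ℕ) : ℝ) ≤ K / Real.log X ^ B := by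
  classical
  have hND : ND0 a b := ⟨hb, h0, h1, h2, h3, h4⟩
  obtain ⟨C, X₁, hC, hX₁, H⟩ := artin_sq hND (u 0, u 1) hW D hD hD1 hD2 (B + 1) ε hε
  have hlt : Filter.Tendsto (fun x : ℕ => Real.log (x : ℝ)) Filter.atTop Filter.atTop :=
    Real.tendsto_log_atTop.comp tendsto_natCast_atTop_atTop
  obtain ⟨X₂, hX₂⟩ := Filter.eventually_atTop.1 (hlt.eventually_ge_atTop C)
  refine ⟨X₁ + X₂, fun X K hX => ?_⟩
  have hX4 : 4 ≤ X := by omega
  have hlog := log_one_le hX4
  have hCl := hX₂ X (by omega)
  obtain ⟨E, hE⟩ : ∃ E : Finset ℕ, E = (range K).filter (fun k => ¬ Regular (δ D) ε X K (D * u k ^ 2)) :=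
    ⟨_, rfl⟩
  have hset : {k : ℕ | k < K ∧ ¬ Regular (δ D) ε X K (D * u k ^ 2)} = (E : Set ℕ) := by
    ext k
    rw [hE]
    simp
  have hdens : δ D = Pool.Agent.H730R2.AA.dens D := rfl
  rw [hset, Set.ncard_coe_finset]
  have h5 := H X K (by omega) E (by rw [hE]; exact filter_subset _ _) (by
    intro k hk
    rw [hE, mem_filter] at hk
    have h6 := hk.2
    unfold Regular at h6
    push Not at h6
    obtain ⟨x, hx1, hx2, hx3⟩ := h6
    refine ⟨x, hx1, hx2, ?_⟩
    rw [P_eq, hdens] at hx3
    rw [← lv_unique a b u hu k]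
    exact hx3)
  refine h5.trans ?_
  have hL0 : 0 < Real.log X := by linarith
  have hK0 : (0 : ℝ) ≤ K := Nat.cast_nonneg _
  calc C * (K / Real.log X ^ (B + 1)) = (C / Real.log X) * (K / Real.log X ^ B) := by
        rw [pow_succ]
        field_simp
    _ ≤ 1 * (K / Real.log X ^ B) := by
        apply mul_le_mul_of_nonneg_right _ (by positivity)
        rw [div_le_one hL0]
        exact hCl
    _ = _ := one_mul _

end Pool.Agent.Results.MP_991e92_nt.RecurrenceSquares
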